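import Mathlib

/-!
# Klamkin's problem on perimeter-bisecting points

Let `K` be a plane convex body such that every line through the point `0` bisects its perimeter. Let
`λ` be the maximum of the ratio of the gauges of `-K` and `K`. Then `K` is contained in `M = λ (-K)` and
there is a common boundary point `P`. Two lines through `0` give: in every cone with vertex `0` the
boundary of `M` is `λ` times as long as the boundary of `K`. On one side of `P` both curves do not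
recede from `0`, that is, in suitable coordinates they are graphs of concave functions `χ ≤ φ` of
`y ∈ [0, δ]`, with a common maximum at `y = 0`. The lengths of the two curves in a small cone between
`P` and `(φ y, y)` have a ratio which is at most `1 + o(1)`. So `λ = 1`.
-/

set_option autoImplicit false

open MeasureTheory Set Filter Topology Metric Measure
open scoped ENNReal NNReal Pointwise RealInnerProductSpace

namespace Pool.Agent.Results.MP_7f2f72_gt.Klamkin

/-- The line through `O` with the normal vector `n` bisects the perimeter of `K`: the parts of the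
boundary of `K` in the two open half-planes have the same length. -/
def Bisects (K : Set ℂ) (O n : ℂ) : Prop :=
  μH[1] (frontier K ∩ {x | 0 < ⟪n, x - O⟫}) = μH[1] (frontier K ∩ {x | ⟪n, x - O⟫ < 0})

/-! ### The upper bound -/

section upper

variable {M : Set ℂ} {δ p : ℝ}

/-- The largest abscissa in `M` at height `t`. -/
noncomputable def top (M : Set ℂ) (t : ℝ) : ℝ := sSup {x : ℝ | (⟨x, t⟩ : ℂ) ∈ M}

/-- The assumptions. -/
structure Setting (M : Set ℂ) (δ p : ℝ) : Prop where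
  compact : IsCompact M
  convex : Convex ℝ M
  δpos : 0 < δ
  ball : ball (0 : ℂ) δ ⊆ M
  ppos : 0 < p
  pmem : (⟨p, 0⟩ : ℂ) ∈ M
  sup : ∀ z ∈ M, 0 ≤ z.im → z.re ≤ p

variable (h : Setting M δ p)

include h

lemma Setting.zero_mem {t : ℝ} (h1 : 0 ≤ t) (h2 : t < δ) : (⟨0, t⟩ : ℂ) ∈ M := by
  apply h.ball
  rw [mem_ball_zero_iff]
  have : ‖(⟨0, t⟩ : ℂ)‖ = t := by
    have h3 : (⟨0, t⟩ : ℂ) = (t : ℂ) * Complex.I := by apply Complex.ext <;> simp
    rw [h3, norm_mul, Complex.norm_I, mul_one, Complex.norm_real, Real.norm_of_nonneg h1]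
  rw [this]; exact h2

lemma Setting.bdd {t : ℝ} (h1 : 0 ≤ t) : BddAbove {x : ℝ | (⟨x, t⟩ : ℂ) ∈ M} :=
  ⟨p, fun _ hx => h.sup _ hx h1⟩

lemma Setting.le_top {t x : ℝ} (h1 : 0 ≤ t) (hx : (⟨x, t⟩ : ℂ) ∈ M) : x ≤ top M t :=
  le_csSup (h.bdd h1) hx

lemma Setting.top_mem {t : ℝ} (h1 : 0 ≤ t) (h2 : t < δ) : (⟨top M t, t⟩ : ℂ) ∈ M := by
  have hcl : IsClosed {x : ℝ | (⟨x, t⟩ : ℂ) ∈ M} := by
    have hc : Continuous fun x : ℝ => (⟨x, t⟩ : ℂ) := by
      have : (fun x : ℝ => (⟨x, t⟩ : ℂ)) = fun x : ℝ => (x : ℂ) + (t : ℂ) * Complex.I := by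
        funext x; apply Complex.ext <;> simp
      rw [this]; fun_prop
    exact h.compact.isClosed.preimage hc
  exact hcl.csSup_mem ⟨0, h.zero_mem h1 h2⟩ (h.bdd h1)

lemma Setting.top_le {t : ℝ} (h1 : 0 ≤ t) (h2 : t < δ) : top M t ≤ p :=
  h.sup _ (h.top_mem h1 h2) h1

lemma Setting.top_nonneg {t : ℝ} (h1 : 0 ≤ t) (h2 : t < δ) : 0 ≤ top M t :=
  h.le_top h1 (h.zero_mem h1 h2)

lemma Setting.top_zero : top M 0 = p :=
  le_antisymm (h.top_le le_rfl h.δpos) (h.le_top le_rfl h.pmem)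

lemma Setting.concave : ConcaveOn ℝ (Ico 0 δ) (top M) := by
  refine ⟨convex_Ico 0 δ, ?_⟩
  intro x hx y hy a b ha hb hab
  have h1 := h.convex (h.top_mem hx.1 hx.2) (h.top_mem hy.1 hy.2) ha hb hab
  have h2 : a • (⟨top M x, x⟩ : ℂ) + b • (⟨top M y, y⟩ : ℂ)
      = ⟨a • top M x + b • top M y, a • x + b • y⟩ := by
    apply Complex.ext <;> simp
  rw [h2] at h1
  refine h.le_top ?_ h1
  have := hx.1
  have := hy.1
  simp only [smul_eq_mul]
  positivity

/-- The slope of `top` near `0`. -/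
lemma Setting.slope_le {y t₁ t₂ : ℝ} (hy : 0 < y) (hy2 : 2 * y < δ) (h0 : 0 ≤ t₁) (h12 : t₁ < t₂)
    (h2 : t₂ ≤ y) : (top M t₁ - top M t₂) * y ≤ (t₂ - t₁) * (top M y - top M (2 * y)) := by
  have hc := h.concave
  have m1 : t₁ ∈ Ico 0 δ := ⟨h0, by linarith⟩
  have m2 : t₂ ∈ Ico 0 δ := ⟨by linarith, by linarith⟩
  have m3 : y ∈ Ico 0 δ := ⟨hy.le, by linarith⟩
  have m4 : 2 * y ∈ Ico 0 δ := ⟨by linarith, hy2⟩
  have s1 := hc.slope_anti_adjacent m1 m4 h12 (by linarith : t₂ < 2 * y)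
  rw [div_le_div_iff₀ (by linarith) (by linarith)] at s1
  rcases h2.eq_or_lt with rfl | hlt
  · have e : 2 * t₂ - t₂ = t₂ := by ring
    rw [e] at s1
    linarith
  · have s2 := hc.slope_anti_adjacent m2 m4 hlt (by linarith : y < 2 * y)
    have e : 2 * y - y = y := by ring
    rw [e, div_le_div_iff₀ hy (by linarith)] at s2
    have p1 : 0 < y - t₂ := by linarith
    have p2 : 0 < t₂ - t₁ := by linarith
    have p3 : 0 < 2 * y - t₂ := by linarith
    -- slope (t₂, 2y) ≥ slope (y, 2y)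
    have s3 : (top M (2 * y) - top M y) * (2 * y - t₂) ≤ (top M (2 * y) - top M t₂) * y := by nlinarith
    nlinarith

lemma Setting.antitone {t₁ t₂ : ℝ} (h0 : 0 ≤ t₁) (h12 : t₁ ≤ t₂) (h2 : t₂ < δ) :
    top M t₂ ≤ top M t₁ := by
  rcases (h0.trans h12).eq_or_lt with h3 | h3
  · have : t₁ = t₂ := le_antisymm h12 (by linarith)
    rw [this]
  · have hc := h.concave.2 (show (0 : ℝ) ∈ Ico 0 δ from ⟨le_rfl, h.δpos⟩)
      (show t₂ ∈ Ico 0 δ from ⟨h3.le, h2⟩)
      (show 0 ≤ 1 - t₁ / t₂ by rw [sub_nonneg, div_le_one h3]; exact h12)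
      (show 0 ≤ t₁ / t₂ by positivity) (by ring)
    simp only [smul_eq_mul] at hc
    have e : (1 - t₁ / t₂) * 0 + t₁ / t₂ * t₂ = t₁ := by field_simp; ring
    rw [e, h.top_zero] at hc
    have h4 := h.top_le h3.le h2
    have h5 : 0 ≤ 1 - t₁ / t₂ := by rw [sub_nonneg, div_le_one h3]; exact h12
    nlinarith

lemma Setting.quot_le {t₁ t₂ : ℝ} (h0 : 0 < t₁) (h12 : t₁ ≤ t₂) (h2 : t₂ < δ) :
    (p - top M t₁) / t₁ ≤ (p - top M t₂) / t₂ := by
  have h3 : 0 < t₂ := h0.trans_le h12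
  have hc := h.concave.2 (show (0 : ℝ) ∈ Ico 0 δ from ⟨le_rfl, h.δpos⟩)
    (show t₂ ∈ Ico 0 δ from ⟨h3.le, h2⟩)
    (show 0 ≤ 1 - t₁ / t₂ by rw [sub_nonneg, div_le_one h3]; exact h12)
    (show 0 ≤ t₁ / t₂ by positivity) (by ring)
  simp only [smul_eq_mul] at hc
  have e : (1 - t₁ / t₂) * 0 + t₁ / t₂ * t₂ = t₁ := by field_simp; ring
  rw [e, h.top_zero] at hc
  rw [div_le_iff₀ h0]
  have e2 : (p - top M t₂) / t₂ * t₁ = t₁ / t₂ * (p - top M t₂) := by ring
  rw [e2]
  linarith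

/-- The open cone between the positive real axis and `Q`. -/
def cone (Q : ℂ) : Set ℂ := {z | 0 < z.im ∧ Q.re * z.im - Q.im * z.re < 0}

lemma Setting.frontier_cone {y : ℝ} (hy : 0 < y) (hy2 : y < δ) :
    frontier M ∩ cone ⟨top M y, y⟩ ⊆ (fun t : ℝ => (⟨top M t, t⟩ : ℂ)) '' Icc 0 y := by
  rintro z ⟨hz1, hz2, hz3⟩
  simp only at hz3
  have hzM : z ∈ M := h.compact.isClosed.frontier_subset hz1
  have h0 := h.top_nonneg hy.le hy2
  have hre : 0 < z.re := by
    by_contra hcon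
    rw [not_lt] at hcon
    have : y * z.re ≤ 0 := mul_nonpos_of_nonneg_of_nonpos hy.le hcon
    have : 0 ≤ top M y * z.im := mul_nonneg h0 hz2.le
    linarith
  have hlt : z.im < y := by
    by_contra hcon
    rw [not_lt] at hcon
    have h1 : top M y < z.re := by
      by_contra hcon2
      rw [not_lt] at hcon2
      have : z.re * y ≤ top M y * z.im := mul_le_mul hcon2 hcon hy.le h0
      linarith
    have hs : 0 < y / z.im := by positivity
    have hs1 : y / z.im ≤ 1 := by rw [div_le_one hz2]; exact hcon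
    have h2 := h.convex h.pmem hzM (sub_nonneg.2 hs1) hs.le (by ring)
    have h3 : (1 - y / z.im) • (⟨p, 0⟩ : ℂ) + (y / z.im) • z
        = ⟨(1 - y / z.im) * p + y / z.im * z.re, y⟩ := by
      apply Complex.ext
      · simp
      · simp; field_simp
    rw [h3] at h2
    have h4 := h.le_top hy.le h2
    have h5 := h.top_le hy.le hy2
    nlinarith
  refine ⟨z.im, ⟨hz2.le, hlt.le⟩, ?_⟩
  have hle : z.re ≤ top M z.im := h.le_top hz2.le (by simpa using hzM)
  rcases hle.eq_or_lt with heq | hlt2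
  · apply Complex.ext
    · simp [heq]
    · simp
  · exfalso
    have hA := h.top_mem hz2.le (hlt.trans hy2)
    have hB : (⟨0, z.im⟩ : ℂ) ∈ interior M := by
      apply interior_mono h.ball
      rw [isOpen_ball.interior_eq, mem_ball_zero_iff]
      have : ‖(⟨0, z.im⟩ : ℂ)‖ = z.im := by
        have h3 : (⟨0, z.im⟩ : ℂ) = (z.im : ℂ) * Complex.I := by apply Complex.ext <;> simp
        rw [h3, norm_mul, Complex.norm_I, mul_one, Complex.norm_real, Real.norm_of_nonneg hz2.le]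
      rw [this]; exact hlt.trans hy2
    have hseg : z ∈ openSegment ℝ (⟨0, z.im⟩ : ℂ) ⟨top M z.im, z.im⟩ := by
      have ht : 0 < top M z.im := hre.trans hlt2
      refine ⟨1 - z.re / top M z.im, z.re / top M z.im, ?_, by positivity, by ring, ?_⟩
      · rw [sub_pos, div_lt_one ht]; exact hlt2
      · apply Complex.ext
        · simp; field_simp
        · simp; ring
    have hint := h.convex.openSegment_interior_closure_subset_interior hB (subset_closure hA) hseg
    rw [h.compact.isClosed.frontier_eq] at hz1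
    exact hz1.2 hint

lemma Setting.upper {y : ℝ} (hy : 0 < y) (hy2 : 2 * y < δ) :
    μH[1] (frontier M ∩ cone ⟨top M y, y⟩) ≤
      ENNReal.ofReal (√(1 + ((top M y - top M (2 * y)) / y) ^ 2) * y) := by
  set κ := (top M y - top M (2 * y)) / y with hκ
  have hlip : LipschitzOnWith (Real.toNNReal (√(1 + κ ^ 2))) (fun t : ℝ => (⟨top M t, t⟩ : ℂ)) (Icc 0 y) := by
    apply LipschitzOnWith.of_dist_le_mul
    have key : ∀ t₁ ∈ Icc 0 y, ∀ t₂ ∈ Icc 0 y, t₁ ≤ t₂ →
        dist (⟨top M t₁, t₁⟩ : ℂ) ⟨top M t₂, t₂⟩ ≤ √(1 + κ ^ 2) * dist t₁ t₂ := by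
      intro t₁ h1 t₂ h2 h12
      rcases h12.eq_or_lt with rfl | hlt
      · simp
      have hs := h.slope_le hy hy2 h1.1 hlt h2.2
      have ha := h.antitone h1.1 hlt.le (by linarith [h2.2] : t₂ < δ)
      have hs2 : top M t₁ - top M t₂ ≤ κ * (t₂ - t₁) := by
        rw [hκ, div_mul_eq_mul_div, le_div_iff₀ hy]; linarith
      rw [Complex.dist_eq, Real.dist_eq, abs_of_neg (by linarith)]
      have hn : ‖(⟨top M t₁, t₁⟩ : ℂ) - ⟨top M t₂, t₂⟩‖ ^ 2 ≤ (√(1 + κ ^ 2) * -(t₁ - t₂)) ^ 2 := by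
        rw [mul_pow, Real.sq_sqrt (by positivity), ← Complex.normSq_eq_norm_sq, Complex.normSq_apply]
        simp only [Complex.sub_re, Complex.sub_im]
        have h5 : (top M t₁ - top M t₂) ^ 2 ≤ (κ * (t₂ - t₁)) ^ 2 := by
          have : 0 ≤ top M t₁ - top M t₂ := by linarith
          gcongr
        nlinarith
      exact (sq_le_sq₀ (norm_nonneg _) (mul_nonneg (Real.sqrt_nonneg _) (by linarith))).1 hn
    intro t₁ h1 t₂ h2
    rw [Real.coe_toNNReal _ (Real.sqrt_nonneg _)]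
    rcases le_total t₁ t₂ with h12 | h12
    · exact key t₁ h1 t₂ h2 h12
    · rw [dist_comm, dist_comm t₁ t₂]
      exact key t₂ h2 t₁ h1 h12
  calc μH[1] (frontier M ∩ cone ⟨top M y, y⟩)
      ≤ μH[1] ((fun t : ℝ => (⟨top M t, t⟩ : ℂ)) '' Icc 0 y) :=
        measure_mono (h.frontier_cone hy (by linarith))
    _ ≤ (Real.toNNReal (√(1 + κ ^ 2)) : ℝ≥0∞) ^ (1 : ℝ) * μH[1] (Icc 0 y) :=
        hlip.hausdorffMeasure_image_le zero_le_one
    _ = ENNReal.ofReal (√(1 + κ ^ 2) * y) := by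
        rw [ENNReal.rpow_one, hausdorffMeasure_real, Real.volume_Icc, sub_zero,
          ENNReal.ofReal_mul (Real.sqrt_nonneg _)]
        rfl

end upper

/-! ### The lower bound -/

section lower

variable {K : Set ℂ}

lemma nhds_of_ball {δ : ℝ} (hδ : 0 < δ) (hb : ball (0 : ℂ) δ ⊆ K) : K ∈ 𝓝 (0 : ℂ) :=
  Filter.mem_of_superset (ball_mem_nhds _ hδ) hb

lemma gauge_pos' (hK : IsCompact K) (h0 : K ∈ 𝓝 (0 : ℂ)) {z : ℂ} (hz : z ≠ 0) : 0 < gauge K z :=
  (gauge_pos (absorbent_nhds_zero h0) (NormedSpace.isVonNBounded_of_isBounded ℝ hK.isBounded)).2 hz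

lemma lower {p μ : ℝ} {Q : ℂ} (hK : IsCompact K) (hc : Convex ℝ K) (h0 : K ∈ 𝓝 (0 : ℂ)) (hp : 0 < p)
    (hP : (⟨p, 0⟩ : ℂ) ∈ frontier K) (hQ : 0 < Q.im) (hμ : 0 < μ) (hμQ : (μ : ℂ) * Q ∈ frontier K) :
    ENNReal.ofReal ‖(μ : ℂ) * Q - ⟨p, 0⟩‖ ≤ μH[1] (frontier K ∩ cone Q) := by
  set P : ℂ := ⟨p, 0⟩ with hPdef
  set L := ‖(μ : ℂ) * Q - P‖ with hL
  have hne : (μ : ℂ) * Q - P ≠ 0 := by
    intro h
    have := congrArg Complex.im h
    simp [hPdef] at this
    rcases this with h1 | h1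
    · exact hμ.ne' h1
    · exact hQ.ne' h1
  have hL0 : 0 < L := norm_pos_iff.2 hne
  set w : ℂ := (L⁻¹ : ℝ) • ((μ : ℂ) * Q - P) with hw
  have hw1 : ‖w‖ = 1 := by
    rw [hw, norm_smul, norm_inv, Real.norm_of_nonneg hL0.le, ← hL, inv_mul_cancel₀ hL0.ne']
  set ζ : ℝ → ℂ := fun τ => ((1 - τ : ℝ) : ℂ) * P + (τ : ℂ) * ((μ : ℂ) * Q) with hζ
  have hζim : ∀ τ, (ζ τ).im = τ * (μ * Q.im) := by
    intro τ; simp [hζ, hPdef]
  have hζre : ∀ τ, (ζ τ).re = (1 - τ) * p + τ * (μ * Q.re) := by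
    intro τ; simp [hζ, hPdef]
  have hζne : ∀ τ ∈ Icc (0 : ℝ) 1, ζ τ ≠ 0 := by
    intro τ hτ hz
    have h1 := hζim τ
    have h2 := hζre τ
    rw [hz] at h1 h2
    simp only [Complex.zero_im, Complex.zero_re] at h1 h2
    have h3 : τ = 0 := by
      rcases mul_eq_zero.1 h1.symm with h | h
      · exact h
      · exact absurd h (mul_pos hμ hQ).ne'
    rw [h3] at h2
    linarith
  set γ : ℝ → ℂ := fun τ => ((gauge K (ζ τ))⁻¹ : ℝ) • ζ τ with hγ
  have hg1 : ∀ z : ℂ, z ∈ frontier K → gauge K z = 1 := fun z hz =>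
    (gauge_eq_one_iff_mem_frontier hc h0).2 hz
  have hγ0 : γ 0 = P := by
    have : ζ 0 = P := by simp [hζ]
    simp only [hγ, this]
    rw [hg1 P hP]; simp
  have hγ1 : γ 1 = (μ : ℂ) * Q := by
    have : ζ 1 = (μ : ℂ) * Q := by simp [hζ]
    simp only [hγ, this]
    rw [hg1 _ hμQ]; simp
  have hγc : ContinuousOn γ (Icc 0 1) := by
    have h1 : Continuous ζ := by
      simp only [hζ]; fun_prop
    have h2 : Continuous fun τ => gauge K (ζ τ) := (continuous_gauge hc h0).comp h1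
    refine ContinuousOn.smul (h2.continuousOn.inv₀ fun τ hτ => ?_) h1.continuousOn
    exact (gauge_pos' hK h0 (hζne τ hτ)).ne'
  have hγf : ∀ τ ∈ Icc (0 : ℝ) 1, γ τ ∈ frontier K := by
    intro τ hτ
    have h1 := gauge_pos' hK h0 (hζne τ hτ)
    rw [← gauge_eq_one_iff_mem_frontier hc h0]
    simp only [hγ]
    rw [gauge_smul_of_nonneg (inv_nonneg.2 h1.le), smul_eq_mul, inv_mul_cancel₀ h1.ne']
  set f : ℂ → ℝ := fun x => ⟪w, x - P⟫ with hf
  have hflip : LipschitzWith 1 f := by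
    refine LipschitzWith.of_dist_le_mul fun x y => ?_
    rw [NNReal.coe_one, one_mul, Real.dist_eq, hf]
    simp only
    rw [← inner_sub_right, sub_sub_sub_cancel_right, dist_eq_norm]
    calc |⟪w, x - y⟫| ≤ ‖w‖ * ‖x - y‖ := abs_real_inner_le_norm _ _
      _ = ‖x - y‖ := by rw [hw1, one_mul]
  have hf0 : f P = 0 := by simp [hf]
  have hf1 : f ((μ : ℂ) * Q) = L := by
    simp only [hf, hw]
    rw [real_inner_smul_left, real_inner_self_eq_norm_sq, ← hL]
    field_simp
  have hsub : Ioo 0 L ⊆ f '' (frontier K ∩ cone Q) := by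
    intro s hs
    have hcont : ContinuousOn (fun τ => f (γ τ)) (Icc 0 1) := hflip.continuous.comp_continuousOn hγc
    have hivt := intermediate_value_Icc (zero_le_one (α := ℝ)) hcont
    simp only [hγ0, hγ1, hf0, hf1] at hivt
    obtain ⟨τ, hτ, hτs⟩ := hivt ⟨hs.1.le, hs.2.le⟩
    simp only at hτs
    have hτ0 : τ ≠ 0 := by
      rintro rfl
      rw [hγ0, hf0] at hτs
      exact hs.1.ne hτs
    have hτ1 : τ ≠ 1 := by
      rintro rfl
      rw [hγ1, hf1] at hτs
      exact hs.2.ne hτs.symm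
    have ht0 : 0 < τ := lt_of_le_of_ne hτ.1 (Ne.symm hτ0)
    have ht1 : τ < 1 := lt_of_le_of_ne hτ.2 hτ1
    have hgp := inv_pos.2 (gauge_pos' hK h0 (hζne τ hτ))
    refine ⟨γ τ, ⟨hγf τ hτ, ?_, ?_⟩, hτs⟩
    · simp only [hγ, Complex.smul_im, smul_eq_mul, hζim]
      positivity
    · simp only [hγ, Complex.smul_im, Complex.smul_re, smul_eq_mul, hζim, hζre]
      have : Q.re * ((gauge K (ζ τ))⁻¹ * (τ * (μ * Q.im))) -
          Q.im * ((gauge K (ζ τ))⁻¹ * ((1 - τ) * p + τ * (μ * Q.re)))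
          = -((gauge K (ζ τ))⁻¹ * ((1 - τ) * p * Q.im)) := by ring
      rw [this, neg_lt_zero]
      have : 0 < 1 - τ := by linarith
      positivity
  calc ENNReal.ofReal L = μH[1] (Ioo 0 L) := by
        rw [hausdorffMeasure_real, Real.volume_Ioo, sub_zero]
    _ ≤ μH[1] (f '' (frontier K ∩ cone Q)) := measure_mono hsub
    _ ≤ ((1 : ℝ≥0) : ℝ≥0∞) ^ (1 : ℝ) * μH[1] (frontier K ∩ cone Q) :=
        hflip.hausdorffMeasure_image_le zero_le_one _
    _ = μH[1] (frontier K ∩ cone Q) := by simp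

end lower

/-! ### Comparison of the two curves -/

lemma local_comparison {K M : Set ℂ} {δ p l : ℝ} (h : Setting M δ p) (hK : IsCompact K)
    (hc : Convex ℝ K) (hb : ball (0 : ℂ) δ ⊆ K) (hKM : K ⊆ M) (hP : (⟨p, 0⟩ : ℂ) ∈ frontier K)
    (hl : 1 < l) : ∃ y : ℝ, 0 < y ∧ μH[1] (frontier M ∩ cone ⟨top M y, y⟩) <
      ENNReal.ofReal l * μH[1] (frontier K ∩ cone ⟨top M y, y⟩) := by
  have h0 := nhds_of_ball h.δpos hb
  -- the slope
  set q : ℝ → ℝ := fun t => (p - top M t) / t with hq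
  have hq0 : ∀ t ∈ Ioo 0 δ, 0 ≤ q t := fun t ht =>
    div_nonneg (by linarith [h.top_le ht.1.le ht.2]) ht.1.le
  have hbdd : BddBelow (q '' Ioo 0 δ) := ⟨0, by rintro _ ⟨t, ht, rfl⟩; exact hq0 t ht⟩
  have hne : (q '' Ioo 0 δ).Nonempty := ⟨_, ⟨δ / 2, ⟨by linarith [h.δpos], by linarith [h.δpos]⟩, rfl⟩⟩
  set κ := sInf (q '' Ioo 0 δ) with hκ
  have hκ0 : 0 ≤ κ := le_csInf hne (by rintro _ ⟨t, ht, rfl⟩; exact hq0 t ht)
  have hκle : ∀ t ∈ Ioo 0 δ, κ ≤ q t := fun t ht => csInf_le hbdd ⟨t, ht, rfl⟩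
  have hsmall : ∀ η > 0, ∃ t₀ ∈ Ioo 0 δ, ∀ t, 0 < t → t ≤ t₀ → q t ≤ κ + η := by
    intro η hη
    obtain ⟨_, ⟨t₀, ht₀, rfl⟩, hlt⟩ := exists_lt_of_csInf_lt hne (lt_add_of_pos_right κ hη)
    exact ⟨t₀, ht₀, fun t ht1 ht2 => (h.quot_le ht1 ht2 ht₀.2).trans hlt.le⟩
  -- a sufficient condition
  suffices hsuff : ∃ y η : ℝ, 0 < y ∧ 0 < η ∧ 2 * y < δ ∧ (∀ t, 0 < t → t ≤ 2 * y → q t ≤ κ + η) ∧
      ∀ μ : ℝ, 0 < μ → μ ≤ 1 →
        √(1 + (κ + 2 * η) ^ 2) * y < l * ‖(μ : ℂ) * ⟨top M y, y⟩ - ⟨p, 0⟩‖ by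
    obtain ⟨y, η, hy, hη, hy2, hqy, hμ⟩ := hsuff
    refine ⟨y, hy, ?_⟩
    set Q : ℂ := ⟨top M y, y⟩ with hQ
    have hQne : Q ≠ 0 := by
      intro h1
      have := congrArg Complex.im h1
      simp [hQ] at this
      exact hy.ne' this
    have hgQ : 1 ≤ gauge K Q := by
      by_contra hcon
      rw [not_le, gauge_lt_one_iff_mem_interior hc h0] at hcon
      have h1 : Q ∈ interior M := interior_mono hKM hcon
      rw [mem_interior_iff_mem_nhds, Metric.mem_nhds_iff] at h1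
      obtain ⟨ε, hε, hbε⟩ := h1
      have h2 : (⟨top M y + ε / 2, y⟩ : ℂ) ∈ M := by
        apply hbε
        rw [mem_ball, Complex.dist_eq]
        have : (⟨top M y + ε / 2, y⟩ : ℂ) - Q = ((ε / 2 : ℝ) : ℂ) := by
          apply Complex.ext <;> simp [hQ]
        rw [this, Complex.norm_real, Real.norm_of_nonneg (by positivity)]
        linarith
      have := h.le_top hy.le h2
      linarith
    have hgpos : 0 < gauge K Q := by linarith
    have hμ1 : 0 < (gauge K Q)⁻¹ := inv_pos.2 hgpos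
    have hμQ : (((gauge K Q)⁻¹ : ℝ) : ℂ) * Q ∈ frontier K := by
      rw [← gauge_eq_one_iff_mem_frontier hc h0, ← Complex.real_smul,
        gauge_smul_of_nonneg hμ1.le, smul_eq_mul, inv_mul_cancel₀ hgpos.ne']
    have hlow := lower hK hc h0 h.ppos hP (Q := Q) hy hμ1 hμQ
    have hup := h.upper hy hy2
    refine hup.trans_lt ?_
    have hineq := hμ _ hμ1 (inv_le_one_of_one_le₀ hgQ)
    have hk1 : (top M y - top M (2 * y)) / y ≤ κ + 2 * η := by
      have e : (top M y - top M (2 * y)) / y = 2 * q (2 * y) - q y := by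
        simp only [hq]; field_simp; ring
      rw [e]
      have a1 := hqy (2 * y) (by linarith) le_rfl
      have a2 := hκle y ⟨hy, by linarith⟩
      linarith
    have hk0 : 0 ≤ (top M y - top M (2 * y)) / y :=
      div_nonneg (by linarith [h.antitone hy.le (by linarith : y ≤ 2 * y) hy2]) hy.le
    have hle : √(1 + ((top M y - top M (2 * y)) / y) ^ 2) * y ≤ √(1 + (κ + 2 * η) ^ 2) * y := by
      gcongr
    calc ENNReal.ofReal (√(1 + ((top M y - top M (2 * y)) / y) ^ 2) * y)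
        < ENNReal.ofReal (l * ‖(((gauge K Q)⁻¹ : ℝ) : ℂ) * Q - ⟨p, 0⟩‖) := by
          rw [ENNReal.ofReal_lt_ofReal_iff']
          have : 0 ≤ √(1 + (κ + 2 * η) ^ 2) * y := by positivity
          exact ⟨hle.trans_lt hineq, this.trans_lt hineq⟩
      _ = ENNReal.ofReal l * ENNReal.ofReal ‖(((gauge K Q)⁻¹ : ℝ) : ℂ) * Q - ⟨p, 0⟩‖ :=
          ENNReal.ofReal_mul (by linarith)
      _ ≤ _ := by gcongr
  have hp := h.ppos
  have hδ := h.δpos
  rcases hκ0.eq_or_lt with hz | hκpos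
  · -- slope zero
    have hF : Tendsto (fun η : ℝ => √(1 + (κ + 2 * η) ^ 2) * √(p ^ 2 + η ^ 2)) (𝓝[>] 0) (𝓝 p) := by
      have hc1 : Continuous (fun η : ℝ => √(1 + (κ + 2 * η) ^ 2) * √(p ^ 2 + η ^ 2)) := by fun_prop
      have h1 := hc1.tendsto 0
      have h2 : √(1 + (κ + 2 * 0) ^ 2) * √(p ^ 2 + 0 ^ 2) = p := by
        rw [← hz]; simp [Real.sqrt_sq hp.le]
      rw [h2] at h1
      exact h1.mono_left nhdsWithin_le_nhds
    have hlt : p < l * p := by nlinarith
    obtain ⟨η, hη1, hη2⟩ := ((hF.eventually_lt_const hlt).and self_mem_nhdsWithin).exists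
    have hη : 0 < η := hη2
    obtain ⟨t₀, ht₀, hqt⟩ := hsmall η hη
    set y := min η (min (t₀ / 2) (δ / 3)) with hy
    have hy0 : 0 < y := lt_min hη (lt_min (by linarith [ht₀.1]) (by linarith))
    have hyη : y ≤ η := min_le_left _ _
    have hyt : y ≤ t₀ / 2 := (min_le_right _ _).trans (min_le_left _ _)
    have hyδ : y ≤ δ / 3 := (min_le_right _ _).trans (min_le_right _ _)
    refine ⟨y, η, hy0, hη, by linarith, fun t ht1 ht2 => hqt t ht1 (by linarith), ?_⟩
    intro μ hμ1 _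
    -- distance from `P` to the line through `Q`
    have htop0 := h.top_nonneg hy0.le (by linarith : y < δ)
    have htop1 := h.top_le hy0.le (by linarith : y < δ)
    set D := ‖(μ : ℂ) * ⟨top M y, y⟩ - ⟨p, 0⟩‖ with hD
    have hD2 : D ^ 2 = (μ * top M y - p) ^ 2 + (μ * y) ^ 2 := by
      rw [hD, ← Complex.normSq_eq_norm_sq, Complex.normSq_apply]; simp; ring
    have hcross : (p * y) ^ 2 ≤ (p ^ 2 + η ^ 2) * D ^ 2 := by
      have h1 : (p * y) ^ 2 ≤ (top M y ^ 2 + y ^ 2) * D ^ 2 := by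
        rw [hD2]
        nlinarith [sq_nonneg (top M y * (μ * top M y - p) + y * (μ * y))]
      have h2 : top M y ^ 2 + y ^ 2 ≤ p ^ 2 + η ^ 2 := by gcongr
      nlinarith [sq_nonneg D]
    have hDlow : p * y ≤ √(p ^ 2 + η ^ 2) * D := by
      have hD0 : 0 ≤ D := norm_nonneg _
      refine (sq_le_sq₀ (by positivity) (by positivity)).1 ?_
      rw [mul_pow (√(p ^ 2 + η ^ 2)), Real.sq_sqrt (by positivity)]
      exact hcross
    have hD0 : 0 < D := by
      by_contra hcon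
      have : D = 0 := le_antisymm (not_lt.1 hcon) (norm_nonneg _)
      rw [this, mul_zero] at hDlow
      have : 0 < p * y := by positivity
      linarith
    have h5 : √(1 + (κ + 2 * η) ^ 2) * y * p ≤ √(1 + (κ + 2 * η) ^ 2) * √(p ^ 2 + η ^ 2) * D := by
      have := Real.sqrt_nonneg (1 + (κ + 2 * η) ^ 2)
      nlinarith
    have h6 : √(1 + (κ + 2 * η) ^ 2) * √(p ^ 2 + η ^ 2) * D < l * p * D := by gcongr
    have h7 : √(1 + (κ + 2 * η) ^ 2) * y * p < l * D * p := by linarith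
    exact lt_of_mul_lt_mul_right h7 hp.le
  · -- positive slope
    have hF : Tendsto (fun η : ℝ => √(1 + (κ + 2 * η) ^ 2)) (𝓝[>] 0) (𝓝 (√(1 + κ ^ 2))) := by
      have hc1 : Continuous (fun η : ℝ => √(1 + (κ + 2 * η) ^ 2)) := by fun_prop
      have h1 := hc1.tendsto 0
      simp only [mul_zero, add_zero] at h1
      exact h1.mono_left nhdsWithin_le_nhds
    have hpos : 0 < √(1 + κ ^ 2) := by positivity
    have hlt : √(1 + κ ^ 2) < l * √(1 + κ ^ 2) := by nlinarith
    obtain ⟨η, hη1, hη2⟩ := ((hF.eventually_lt_const hlt).and self_mem_nhdsWithin).exists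
    have hη : 0 < η := hη2
    obtain ⟨t₀, ht₀, hqt⟩ := hsmall η hη
    set y := min (κ * p / (1 + κ * (κ + η))) (min (t₀ / 2) (δ / 3)) with hy
    have hy0 : 0 < y := lt_min (by positivity) (lt_min (by linarith [ht₀.1]) (by linarith))
    have hyη : y ≤ κ * p / (1 + κ * (κ + η)) := min_le_left _ _
    have hyt : y ≤ t₀ / 2 := (min_le_right _ _).trans (min_le_left _ _)
    have hyδ : y ≤ δ / 3 := (min_le_right _ _).trans (min_le_right _ _)
    refine ⟨y, η, hy0, hη, by linarith, fun t ht1 ht2 => hqt t ht1 (by linarith), ?_⟩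
    intro μ hμ1 hμ2
    have htop0 := h.top_nonneg hy0.le (by linarith : y < δ)
    have htop1 := h.top_le hy0.le (by linarith : y < δ)
    set D := ‖(μ : ℂ) * ⟨top M y, y⟩ - ⟨p, 0⟩‖ with hD
    have hD2 : D ^ 2 = (μ * top M y - p) ^ 2 + (μ * y) ^ 2 := by
      rw [hD, ← Complex.normSq_eq_norm_sq, Complex.normSq_apply]; simp; ring
    have hq1 : q y ≤ κ + η := hqt y hy0 (by linarith [ht₀.1])
    have hq2 : κ ≤ q y := hκle y ⟨hy0, by linarith⟩
    simp only [hq] at hq1 hq2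
    rw [div_le_iff₀ hy0] at hq1
    rw [le_div_iff₀ hy0] at hq2
    have hy3 : y * (1 + κ * (κ + η)) ≤ κ * p := by
      rwa [le_div_iff₀ (by positivity)] at hyη
    have hy4 : y ≤ κ * top M y := by nlinarith
    have h8 : y ^ 2 ≤ top M y * (p - top M y) := by nlinarith
    have hD3 : y ^ 2 * (1 + κ ^ 2) ≤ D ^ 2 := by
      have h9 : (p - top M y) ^ 2 + y ^ 2 ≤ D ^ 2 := by
        rw [hD2]
        have : (μ * top M y - p) ^ 2 + (μ * y) ^ 2 - ((p - top M y) ^ 2 + y ^ 2)
            = (1 - μ) * (2 * (top M y * (p - top M y) - y ^ 2)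
              + (1 - μ) * (top M y ^ 2 + y ^ 2)) := by ring
        have h10 : 0 ≤ (1 - μ) * (2 * (top M y * (p - top M y) - y ^ 2)
              + (1 - μ) * (top M y ^ 2 + y ^ 2)) := by
          have h11 : 0 ≤ 1 - μ := by linarith
          have h12 : 0 ≤ top M y * (p - top M y) - y ^ 2 := by linarith
          positivity
        linarith
      have h13 : (κ * y) ^ 2 ≤ (p - top M y) ^ 2 := by
        have : 0 ≤ κ * y := by positivity
        gcongr
      nlinarith
    have hDlow : √(1 + κ ^ 2) * y ≤ D := by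
      have hD0 : 0 ≤ D := norm_nonneg _
      refine (sq_le_sq₀ (by positivity) hD0).1 ?_
      rw [mul_pow, Real.sq_sqrt (by positivity)]
      linarith
    calc √(1 + (κ + 2 * η) ^ 2) * y < l * √(1 + κ ^ 2) * y := by gcongr
      _ = l * (√(1 + κ ^ 2) * y) := by ring
      _ ≤ l * D := by gcongr

/-! ### Lengths in cones -/

lemma circle_finite : μH[1] (sphere (0 : ℂ) 1) < ∞ := by
  have h1 : sphere (0 : ℂ) 1 = circleMap 0 1 '' Ioc 0 (2 * Real.pi) := by
    rw [image_circleMap_Ioc]; simp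
  rw [h1]
  have h2 := (lipschitzWith_circleMap (0 : ℂ) 1).hausdorffMeasure_image_le (d := 1) zero_le_one
    (Ioc 0 (2 * Real.pi))
  refine h2.trans_lt ?_
  rw [hausdorffMeasure_real, Real.volume_Ioc, ENNReal.rpow_one]
  exact ENNReal.mul_lt_top ENNReal.coe_lt_top ENNReal.ofReal_lt_top

lemma frontier_finite {K : Set ℂ} (hK : IsCompact K) (hc : Convex ℝ K) (h0 : K ∈ 𝓝 (0 : ℂ)) :
    μH[1] (frontier K) < ∞ := by
  obtain ⟨δ, hδ, hb⟩ := Metric.mem_nhds_iff.1 h0
  obtain ⟨x₀, hx₀, hmin⟩ := (isCompact_sphere (0 : ℂ) 1).exists_isMinOn ⟨1, by simp⟩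
    (continuous_gauge hc h0).continuousOn
  set c := gauge K x₀ with hcdef
  have hcpos : 0 < c := by
    apply gauge_pos' hK h0
    rintro rfl
    simp at hx₀
  have hgc : ∀ x ∈ sphere (0 : ℂ) 1, c ≤ gauge K x := fun x hx => hmin hx
  obtain ⟨L, hL⟩ := hc.lipschitz_gauge h0
  have hlip : LipschitzOnWith (Real.toNNReal (1 / c + L / c ^ 2)) (fun x : ℂ => (gauge K x)⁻¹ • x)
      (sphere (0 : ℂ) 1) := by
    apply LipschitzOnWith.of_dist_le_mul
    intro x hx y hy
    have gx := hgc x hx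
    have gy := hgc y hy
    have gx0 : 0 < gauge K x := hcpos.trans_le gx
    have gy0 : 0 < gauge K y := hcpos.trans_le gy
    have hny : ‖y‖ = 1 := by simpa using hy
    have hLxy : |gauge K y - gauge K x| ≤ L * ‖x - y‖ := by
      have := hL.dist_le_mul x y
      rw [Real.dist_eq, dist_eq_norm] at this
      rwa [abs_sub_comm]
    rw [Real.coe_toNNReal _ (by positivity), dist_eq_norm, dist_eq_norm]
    have e : (gauge K x)⁻¹ • x - (gauge K y)⁻¹ • y
        = (gauge K x)⁻¹ • (x - y) + ((gauge K x)⁻¹ - (gauge K y)⁻¹) • y := by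
      rw [smul_sub, sub_smul]; abel
    rw [e]
    have h1 : ‖(gauge K x)⁻¹ • (x - y)‖ ≤ 1 / c * ‖x - y‖ := by
      rw [norm_smul, norm_inv, Real.norm_of_nonneg gx0.le, one_div]
      gcongr
    have h2 : ‖((gauge K x)⁻¹ - (gauge K y)⁻¹) • y‖ ≤ L / c ^ 2 * ‖x - y‖ := by
      rw [norm_smul, hny, mul_one, inv_sub_inv gx0.ne' gy0.ne', norm_div, Real.norm_eq_abs,
        Real.norm_of_nonneg (by positivity : 0 ≤ gauge K x * gauge K y), div_le_iff₀ (by positivity)]
      have h3 : c ^ 2 ≤ gauge K x * gauge K y := by nlinarith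
      calc |gauge K y - gauge K x| ≤ L * ‖x - y‖ := hLxy
        _ = L / c ^ 2 * ‖x - y‖ * c ^ 2 := by field_simp
        _ ≤ L / c ^ 2 * ‖x - y‖ * (gauge K x * gauge K y) := by gcongr
    calc _ ≤ ‖(gauge K x)⁻¹ • (x - y)‖ + ‖((gauge K x)⁻¹ - (gauge K y)⁻¹) • y‖ := norm_add_le _ _
      _ ≤ 1 / c * ‖x - y‖ + L / c ^ 2 * ‖x - y‖ := add_le_add h1 h2
      _ = _ := by ring
  have hsub : frontier K ⊆ (fun x : ℂ => (gauge K x)⁻¹ • x) '' sphere (0 : ℂ) 1 := by
    intro z hz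
    have hg := (gauge_eq_one_iff_mem_frontier hc h0).2 hz
    have hz0 : z ≠ 0 := by
      rintro rfl
      rw [gauge_zero] at hg
      exact zero_ne_one hg
    have hn : 0 < ‖z‖ := norm_pos_iff.2 hz0
    refine ⟨(‖z‖)⁻¹ • z, ?_, ?_⟩
    · simp [hn.ne']
    · simp only
      rw [gauge_smul_of_nonneg (inv_nonneg.2 hn.le), hg, smul_eq_mul, mul_one, inv_inv, smul_smul,
        mul_inv_cancel₀ hn.ne', one_smul]
  refine (measure_mono hsub).trans_lt ((hlip.hausdorffMeasure_image_le zero_le_one).trans_lt ?_)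
  rw [ENNReal.rpow_one]
  exact ENNReal.mul_lt_top ENNReal.coe_lt_top circle_finite

/-- A line through `0` meets the boundary in a set of length zero. -/
lemma line_null {K : Set ℂ} (hc : Convex ℝ K) (h0 : K ∈ 𝓝 (0 : ℂ)) {v : ℂ} (hv : v ≠ 0) :
    μH[1] (frontier K ∩ {x | v.re * x.im - v.im * x.re = 0}) = 0 := by
  have hns : NullSingletonClass (μH[1] : Measure ℂ) := nullSingletonClass_hausdorff ℂ one_pos
  have hsub : frontier K ∩ {x | v.re * x.im - v.im * x.re = 0} ⊆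
      {(gauge K v)⁻¹ • v, (gauge K (-v))⁻¹ • (-v)} := by
    rintro x ⟨hx, hx2⟩
    simp only [Set.mem_ofPred_eq] at hx2
    have hg := (gauge_eq_one_iff_mem_frontier hc h0).2 hx
    -- `x = s v`
    have hvs : v.re ^ 2 + v.im ^ 2 ≠ 0 := by
      intro h
      apply hv
      have h1 : v.re = 0 := by nlinarith [sq_nonneg v.re, sq_nonneg v.im]
      have h2 : v.im = 0 := by nlinarith [sq_nonneg v.re, sq_nonneg v.im]
      exact Complex.ext h1 h2
    obtain ⟨s, hs⟩ : ∃ s : ℝ, x = s • v := by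
      refine ⟨(v.re * x.re + v.im * x.im) / (v.re ^ 2 + v.im ^ 2), ?_⟩
      apply Complex.ext
      · simp only [Complex.smul_re, smul_eq_mul]
        field_simp
        linear_combination v.im * hx2 * (-1) + 0 * hx2
      · simp only [Complex.smul_im, smul_eq_mul]
        field_simp
        linear_combination v.re * hx2
    rcases lt_trichotomy s 0 with h1 | h1 | h1
    · right
      have h2 : x = (-s) • (-v) := by rw [hs]; simp
      rw [h2, gauge_smul_of_nonneg (by linarith), smul_eq_mul] at hg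
      rw [mem_singleton_iff, h2]
      congr 1
      exact eq_inv_of_mul_eq_one_left hg
    · exfalso
      rw [hs, h1, zero_smul, gauge_zero] at hg
      exact zero_ne_one hg
    · left
      rw [hs, gauge_smul_of_nonneg h1.le, smul_eq_mul] at hg
      rw [hs]
      congr 1
      exact eq_inv_of_mul_eq_one_left hg
  exact measure_mono_null hsub ((Set.toFinite _).measure_zero _)

lemma measure_split {S : Set ℂ} {f : ℂ → ℝ} (hf : Continuous f) (h0 : μH[1] (S ∩ {x | f x = 0}) = 0)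
    {T : Set ℂ} : μH[1] (S ∩ T) = μH[1] (S ∩ T ∩ {x | f x < 0}) + μH[1] (S ∩ T ∩ {x | 0 < f x}) := by
  have hm : MeasurableSet {x : ℂ | f x < 0} := (isOpen_lt hf continuous_const).measurableSet
  rw [← measure_inter_add_sdiff (S ∩ T) hm]
  congr 1
  refine le_antisymm ?_ (measure_mono ?_)
  · have hsub : (S ∩ T) \ {x | f x < 0} ⊆ (S ∩ T ∩ {x | 0 < f x}) ∪ (S ∩ {x | f x = 0}) := by
      rintro x ⟨⟨h1, h2⟩, h3⟩
      simp only [Set.mem_ofPred_eq, not_lt] at h3
      rcases h3.eq_or_lt with h4 | h4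
      · right; exact ⟨h1, h4.symm⟩
      · left; exact ⟨⟨h1, h2⟩, h4⟩
    calc _ ≤ μH[1] ((S ∩ T ∩ {x | 0 < f x}) ∪ (S ∩ {x | f x = 0})) := measure_mono hsub
      _ ≤ _ := measure_union_le _ _
      _ = _ := by rw [h0, add_zero]
  · rintro x ⟨h1, h2⟩
    refine ⟨h1, ?_⟩
    simp only [Set.mem_ofPred_eq, not_lt] at h2 ⊢
    exact h2.le

/-- Opposite cones contain parts of the boundary of the same length. -/
lemma cone_eq {K : Set ℂ} (hK : IsCompact K) (hc : Convex ℝ K) (h0 : K ∈ 𝓝 (0 : ℂ))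
    (hb : ∀ n : ℂ, n ≠ 0 → Bisects K 0 n) {Q : ℂ} (hQ : 0 < Q.im) :
    μH[1] (frontier K ∩ cone Q) =
      μH[1] (frontier K ∩ {x | x.im < 0 ∧ 0 < Q.re * x.im - Q.im * x.re}) := by
  have hQ0 : Q ≠ 0 := by rintro rfl; simp at hQ
  have n1 := line_null hc h0 (v := 1) one_ne_zero
  have n2 := line_null hc h0 hQ0
  simp only [Complex.one_re, one_mul, Complex.one_im, zero_mul, sub_zero] at n1
  have b1 := hb Complex.I Complex.I_ne_zero
  have b2 := hb ⟨-Q.im, Q.re⟩ (by
    intro h; have := congrArg Complex.re h; simp at this; exact hQ.ne' this)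
  unfold Bisects at b1 b2
  have i1 : ∀ x : ℂ, ⟪Complex.I, x - 0⟫ = x.im := by intro x; simp [Complex.inner]
  have i2 : ∀ x : ℂ, ⟪(⟨-Q.im, Q.re⟩ : ℂ), x - 0⟫ = Q.re * x.im - Q.im * x.re := by
    intro x; simp [Complex.inner]; ring
  simp only [i1] at b1
  simp only [i2] at b2
  have hcim : Continuous fun x : ℂ => x.im := Complex.continuous_im
  have hccr : Continuous fun x : ℂ => Q.re * x.im - Q.im * x.re := by fun_prop
  rw [measure_split hccr n2 (T := {x | 0 < x.im}), measure_split hccr n2 (T := {x | x.im < 0})] at b1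
  rw [measure_split hcim n1 (T := {x | 0 < Q.re * x.im - Q.im * x.re}),
    measure_split hcim n1 (T := {x | Q.re * x.im - Q.im * x.re < 0})] at b2
  have e1 : frontier K ∩ {x | 0 < x.im} ∩ {x | Q.re * x.im - Q.im * x.re < 0} = frontier K ∩ cone Q := by
    rw [inter_assoc]; rfl
  have e1' : frontier K ∩ {x | Q.re * x.im - Q.im * x.re < 0} ∩ {x | 0 < x.im} = frontier K ∩ cone Q := by
    rw [← e1]; exact inter_right_comm _ _ _
  have e2 : frontier K ∩ {x | x.im < 0} ∩ {x | 0 < Q.re * x.im - Q.im * x.re} =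
      frontier K ∩ {x | x.im < 0 ∧ 0 < Q.re * x.im - Q.im * x.re} := by
    rw [inter_assoc]; rfl
  have e2' : frontier K ∩ {x | 0 < Q.re * x.im - Q.im * x.re} ∩ {x | x.im < 0} =
      frontier K ∩ {x | x.im < 0 ∧ 0 < Q.re * x.im - Q.im * x.re} := by
    rw [← e2]; exact inter_right_comm _ _ _
  have e3 : frontier K ∩ {x | 0 < Q.re * x.im - Q.im * x.re} ∩ {x | 0 < x.im} =
      frontier K ∩ {x | 0 < x.im} ∩ {x | 0 < Q.re * x.im - Q.im * x.re} := inter_right_comm _ _ _
  have e4 : frontier K ∩ {x | Q.re * x.im - Q.im * x.re < 0} ∩ {x | x.im < 0} =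
      frontier K ∩ {x | x.im < 0} ∩ {x | Q.re * x.im - Q.im * x.re < 0} := inter_right_comm _ _ _
  rw [e1, e2] at b1
  rw [e1', e2', e3, e4] at b2
  have hfin := frontier_finite hK hc h0
  have f1 : μH[1] (frontier K ∩ cone Q) ≠ ∞ := ((measure_mono inter_subset_left).trans_lt hfin).ne
  have f2 : μH[1] (frontier K ∩ {x | x.im < 0 ∧ 0 < Q.re * x.im - Q.im * x.re}) ≠ ∞ :=
    ((measure_mono inter_subset_left).trans_lt hfin).ne
  have f3 : μH[1] (frontier K ∩ {x | 0 < x.im} ∩ {x | 0 < Q.re * x.im - Q.im * x.re}) ≠ ∞ :=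
    ((measure_mono (inter_subset_left.trans inter_subset_left)).trans_lt hfin).ne
  have f4 : μH[1] (frontier K ∩ {x | x.im < 0} ∩ {x | Q.re * x.im - Q.im * x.re < 0}) ≠ ∞ :=
    ((measure_mono (inter_subset_left.trans inter_subset_left)).trans_lt hfin).ne
  generalize μH[1] (frontier K ∩ cone Q) = a at *
  generalize μH[1] (frontier K ∩ {x | x.im < 0 ∧ 0 < Q.re * x.im - Q.im * x.re}) = a' at *
  generalize μH[1] (frontier K ∩ {x | 0 < x.im} ∩ {x | 0 < Q.re * x.im - Q.im * x.re}) = b at *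
  generalize μH[1] (frontier K ∩ {x | x.im < 0} ∩ {x | Q.re * x.im - Q.im * x.re < 0}) = b' at *
  lift a to ℝ≥0 using f1
  lift a' to ℝ≥0 using f2
  lift b to ℝ≥0 using f3
  lift b' to ℝ≥0 using f4
  norm_cast at b1 b2 ⊢
  have c1 : (a : ℝ) + b = b' + a' := by exact_mod_cast b1
  have c2 : (a' : ℝ) + b = b' + a := by exact_mod_cast b2
  have : (a : ℝ) = a' := by linarith
  exact_mod_cast this

/-! ### The contradiction in coordinates -/

lemma coord {K : Set ℂ} {p l : ℝ} (hK : IsCompact K) (hc : Convex ℝ K) (h0 : K ∈ 𝓝 (0 : ℂ))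
    (hb : ∀ n : ℂ, n ≠ 0 → Bisects K 0 n) (hp : 0 < p) (hP : (⟨p, 0⟩ : ℂ) ∈ frontier K) (hl : 1 < l)
    (hsub : K ⊆ (-l : ℝ) • K) (hsup : ∀ z ∈ (-l : ℝ) • K, 0 ≤ z.im → z.re ≤ p) : False := by
  obtain ⟨δ, hδ, hball⟩ := Metric.mem_nhds_iff.1 h0
  have hl0 : (-l : ℝ) ≠ 0 := by linarith
  have hset : Setting ((-l : ℝ) • K) δ p :=
    { compact := hK.smul _
      convex := hc.smul _
      δpos := hδ
      ball := hball.trans hsub
      ppos := hp
      pmem := hsub (hK.isClosed.frontier_subset hP)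
      sup := hsup }
  obtain ⟨y, hy, hlt⟩ := local_comparison hset hK hc hball hsub hP hl
  set Q : ℂ := ⟨top ((-l : ℝ) • K) y, y⟩ with hQ
  have hQim : 0 < Q.im := hy
  have hcone := cone_eq hK hc h0 hb hQim
  have hfr : frontier ((-l : ℝ) • K) = (-l : ℝ) • frontier K := by
    have := (Homeomorph.smulOfNeZero (-l : ℝ) hl0 (α := ℂ)).image_frontier K
    exact this.symm
  have hset2 : frontier ((-l : ℝ) • K) ∩ cone Q =
      (-l : ℝ) • (frontier K ∩ {x | x.im < 0 ∧ 0 < Q.re * x.im - Q.im * x.re}) := by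
    rw [hfr]
    ext z
    constructor
    · rintro ⟨⟨x, hx, rfl⟩, h1, h2⟩
      refine ⟨x, ⟨hx, ?_, ?_⟩, rfl⟩
      · simp only [Complex.smul_im, smul_eq_mul] at h1
        by_contra hcon
        rw [not_lt] at hcon
        nlinarith
      · simp only [Complex.smul_im, Complex.smul_re, smul_eq_mul] at h2
        by_contra hcon
        rw [not_lt] at hcon
        nlinarith
    · rintro ⟨x, ⟨hx, h1, h2⟩, rfl⟩
      refine ⟨⟨x, hx, rfl⟩, ?_, ?_⟩
      · simp only [Complex.smul_im, smul_eq_mul]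
        nlinarith
      · simp only [Complex.smul_im, Complex.smul_re, smul_eq_mul]
        nlinarith
  rw [hset2, Measure.hausdorffMeasure_smul₀ zero_le_one hl0, ← hcone] at hlt
  have hn : ‖(-l : ℝ)‖₊ = Real.toNNReal l := by
    ext
    rw [coe_nnnorm, norm_neg, Real.norm_of_nonneg (by linarith), Real.coe_toNNReal _ (by linarith)]
  rw [hn, NNReal.rpow_one, ENNReal.smul_def, smul_eq_mul] at hlt
  exact lt_irrefl _ hlt

lemma bisects_map {K : Set ℂ} (T : ℂ ≃ₗᵢ[ℝ] ℂ) (hb : ∀ n : ℂ, n ≠ 0 → Bisects K 0 n) :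
    ∀ n : ℂ, n ≠ 0 → Bisects (T '' K) 0 n := by
  intro n hn
  have h1 := hb (T.symm n) (by simpa using hn)
  unfold Bisects at h1 ⊢
  have hfr : frontier (T '' K) = T '' frontier K := (T.toHomeomorph.image_frontier K).symm
  have hin : ∀ x, ⟪n, T x - 0⟫ = ⟪T.symm n, x - 0⟫ := by
    intro x
    rw [sub_zero, sub_zero, ← T.inner_map_map (T.symm n) x, T.apply_symm_apply]
  have e1 : frontier (T '' K) ∩ {x | 0 < ⟪n, x - 0⟫} =
      T '' (frontier K ∩ {x | 0 < ⟪T.symm n, x - 0⟫}) := by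
    rw [hfr]
    ext z
    constructor
    · rintro ⟨⟨x, hx, rfl⟩, h2⟩
      exact ⟨x, ⟨hx, by rw [Set.mem_ofPred_eq, ← hin]; exact h2⟩, rfl⟩
    · rintro ⟨x, ⟨hx, h2⟩, rfl⟩
      exact ⟨⟨x, hx, rfl⟩, by rw [Set.mem_ofPred_eq, hin]; exact h2⟩
  have e2 : frontier (T '' K) ∩ {x | ⟪n, x - 0⟫ < 0} =
      T '' (frontier K ∩ {x | ⟪T.symm n, x - 0⟫ < 0}) := by
    rw [hfr]
    ext z
    constructor
    · rintro ⟨⟨x, hx, rfl⟩, h2⟩
      exact ⟨x, ⟨hx, by rw [Set.mem_ofPred_eq, ← hin]; exact h2⟩, rfl⟩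
    · rintro ⟨x, ⟨hx, h2⟩, rfl⟩
      exact ⟨⟨x, hx, rfl⟩, by rw [Set.mem_ofPred_eq, hin]; exact h2⟩
  rw [e1, e2, T.isometry.hausdorffMeasure_image (Or.inl zero_le_one),
    T.isometry.hausdorffMeasure_image (Or.inl zero_le_one), h1]

/-- The contradiction in general position. -/
lemma general {K : Set ℂ} {l : ℝ} {P n : ℂ} (hK : IsCompact K) (hc : Convex ℝ K)
    (h0 : K ∈ 𝓝 (0 : ℂ)) (hb : ∀ n : ℂ, n ≠ 0 → Bisects K 0 n) (hP : P ∈ frontier K) (hl : 1 < l)
    (hsub : K ⊆ (-l : ℝ) • K) (hn : n ≠ 0) (hsup : ∀ z ∈ (-l : ℝ) • K, ⟪n, z⟫ ≤ ⟪n, P⟫) : False := by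
  have hP0 : P ≠ 0 := by
    rintro rfl
    rw [frontier, Set.mem_sdiff, mem_interior_iff_mem_nhds] at hP
    exact hP.2 h0
  have hPn : 0 < ‖P‖ := norm_pos_iff.2 hP0
  -- a linear isometry which maps `P` to a positive number and `n` to the upper half-plane
  obtain ⟨T, hTP, hTn⟩ : ∃ T : ℂ ≃ₗᵢ[ℝ] ℂ, T P = ⟨‖P‖, 0⟩ ∧ 0 ≤ (T n).im := by
    have hu : ‖(starRingEnd ℂ P) / ‖P‖‖ = 1 := by
      rw [norm_div, Complex.norm_real, norm_norm, Complex.norm_conj, div_self hPn.ne']
    set a : Circle := ⟨(starRingEnd ℂ P) / ‖P‖, mem_sphere_zero_iff_norm.2 hu⟩ with ha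
    have hR : rotation a P = ⟨‖P‖, 0⟩ := by
      rw [rotation_apply]
      change (starRingEnd ℂ P) / ‖P‖ * P = _
      have h1 : (starRingEnd ℂ P) / ‖P‖ * P = (‖P‖ : ℂ) := by
        rw [div_mul_eq_mul_div, mul_comm, Complex.mul_conj, Complex.normSq_eq_norm_sq]
        have : (‖P‖ : ℂ) ≠ 0 := by exact_mod_cast hPn.ne'
        push_cast
        field_simp
      rw [h1]
      apply Complex.ext <;> simp
    rcases le_total 0 (rotation a n).im with h1 | h1
    · exact ⟨rotation a, hR, h1⟩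
    · refine ⟨(rotation a).trans Complex.conjLIE, ?_, ?_⟩
      · rw [LinearIsometryEquiv.trans_apply, hR, Complex.conjLIE_apply]
        apply Complex.ext <;> simp
      · rw [LinearIsometryEquiv.trans_apply, Complex.conjLIE_apply, Complex.conj_im]
        linarith
  have himg : ∀ r : ℝ, T '' (r • K) = r • (T '' K) := by
    intro r
    ext z
    constructor
    · rintro ⟨_, ⟨x, hx, rfl⟩, rfl⟩
      exact ⟨T x, ⟨x, hx, rfl⟩, (T.map_smul r x).symm⟩
    · rintro ⟨_, ⟨x, hx, rfl⟩, rfl⟩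
      exact ⟨r • x, ⟨x, hx, rfl⟩, T.map_smul r x⟩
  have hn1 : 0 < (T n).re := by
    -- `0` is an interior point
    obtain ⟨δ, hδ, hball⟩ := Metric.mem_nhds_iff.1 h0
    have hnn : 0 < ‖n‖ := norm_pos_iff.2 hn
    have h1 : (δ / (2 * ‖n‖)) • n ∈ K := by
      apply hball
      rw [mem_ball_zero_iff, norm_smul, Real.norm_of_nonneg (by positivity), div_mul_eq_mul_div,
        div_lt_iff₀ (by positivity)]
      nlinarith
    have h2 := hsup _ (hsub h1)
    rw [real_inner_smul_right, real_inner_self_eq_norm_sq] at h2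
    have h3 : 0 < δ / (2 * ‖n‖) * ‖n‖ ^ 2 := by positivity
    have h4 : ⟪n, P⟫ = (T n).re * ‖P‖ := by
      rw [← T.inner_map_map n P, hTP]
      simp [Complex.inner]
      ring
    rw [h4] at h2
    by_contra hcon
    rw [not_lt] at hcon
    nlinarith
  refine coord (K := T '' K) (p := ‖P‖) (l := l) ?_ ?_ ?_ (bisects_map T hb) hPn ?_ hl ?_ ?_
  · exact hK.image T.continuous
  · exact hc.linear_image T.toLinearEquiv.toLinearMap
  · have := T.toHomeomorph.isOpenMap.image_mem_nhds h0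
    simpa using this
  · rw [← hTP]
    have hfr : frontier (T '' K) = T '' frontier K := (T.toHomeomorph.image_frontier K).symm
    rw [hfr]
    exact mem_image_of_mem _ hP
  · rw [← himg]
    exact image_mono hsub
  · rw [← himg]
    rintro _ ⟨z, hz, rfl⟩ him
    have h1 := hsup z hz
    have hinn : ∀ a b : ℂ, ⟪a, b⟫ = a.re * b.re + a.im * b.im := by
      intro a b; simp [Complex.inner]; ring
    rw [← T.inner_map_map n z, ← T.inner_map_map n P, hTP, hinn, hinn] at h1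
    simp only [mul_zero, add_zero] at h1
    have h2 : 0 ≤ (T n).im * (T z).im := mul_nonneg hTn him
    by_contra hcon
    rw [not_le] at hcon
    nlinarith

/-- The case `O = 0`. -/
lemma symmetric_of_bisects {K : Set ℂ} (hK : IsCompact K) (hc : Convex ℝ K) (h0 : K ∈ 𝓝 (0 : ℂ))
    (hb : ∀ n : ℂ, n ≠ 0 → Bisects K 0 n) : ∀ x ∈ K, -x ∈ K := by
  have hg := continuous_gauge hc h0
  have hgpos : ∀ z : ℂ, z ≠ 0 → 0 < gauge K z := fun z hz => gauge_pos' hK h0 hz
  have hne : ∀ x ∈ sphere (0 : ℂ) 1, x ≠ 0 := by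
    rintro x hx rfl
    simp at hx
  have hcont : ContinuousOn (fun x : ℂ => gauge K (-x) / gauge K x) (sphere 0 1) :=
    ContinuousOn.div (hg.comp continuous_neg).continuousOn hg.continuousOn
      (fun x hx => (hgpos x (hne x hx)).ne')
  obtain ⟨e, he, hmax⟩ := (isCompact_sphere (0 : ℂ) 1).exists_isMaxOn ⟨1, by simp⟩ hcont
  set l := gauge K (-e) / gauge K e with hl
  have he0 := hne e he
  have hge := hgpos e he0
  have hle : ∀ x : ℂ, gauge K (-x) ≤ l * gauge K x := by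
    intro x
    by_cases hx : x = 0
    · subst hx; simp
    · have hn : 0 < ‖x‖ := norm_pos_iff.2 hx
      have h1 : ((‖x‖)⁻¹ • x) ∈ sphere (0 : ℂ) 1 := by simp [hn.ne']
      have h2 : gauge K (-((‖x‖)⁻¹ • x)) / gauge K ((‖x‖)⁻¹ • x) ≤ l := hmax h1
      rw [← smul_neg, gauge_smul_of_nonneg (inv_nonneg.2 hn.le), gauge_smul_of_nonneg (inv_nonneg.2 hn.le),
        smul_eq_mul, smul_eq_mul, mul_div_mul_left _ _ (inv_ne_zero hn.ne'),
        div_le_iff₀ (hgpos x hx)] at h2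
      exact h2
  have hmem : ∀ x : ℂ, gauge K x ≤ 1 ↔ x ∈ K := by
    intro x
    rw [gauge_le_one_iff_mem_closure hc h0, hK.isClosed.closure_eq]
  by_cases hl1 : l ≤ 1
  · intro x hx
    rw [← hmem] at hx ⊢
    have h1 := hle x
    have h2 := gauge_nonneg (s := K) x
    nlinarith
  · exfalso
    rw [not_le] at hl1
    have hl0 : (-l : ℝ) ≠ 0 := by linarith
    have hmemM : ∀ x : ℂ, x ∈ (-l : ℝ) • K ↔ gauge K (-x) ≤ l := by
      intro x
      rw [Set.mem_smul_set_iff_inv_smul_mem₀ hl0, ← hmem]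
      have h1 : (-l)⁻¹ • x = l⁻¹ • (-x) := by rw [inv_neg, neg_smul, smul_neg]
      rw [h1, gauge_smul_of_nonneg (by positivity), smul_eq_mul, inv_mul_le_iff₀ (by linarith), mul_one]
    have hnhdsM : (-l : ℝ) • K ∈ 𝓝 (0 : ℂ) := by
      have := set_smul_mem_nhds_zero_iff hl0 |>.2 h0
      exact this
    set P : ℂ := (gauge K e)⁻¹ • e with hP
    have hPf : P ∈ frontier K := by
      rw [← gauge_eq_one_iff_mem_frontier hc h0, hP, gauge_smul_of_nonneg (inv_nonneg.2 hge.le),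
        smul_eq_mul, inv_mul_cancel₀ hge.ne']
    have hPM : P ∉ interior ((-l : ℝ) • K) := by
      intro hcon
      -- a slightly larger multiple of `P` is in `M`
      rw [mem_interior_iff_mem_nhds] at hcon
      have ht : Tendsto (fun t : ℝ => (1 + t) • P) (𝓝[>] 0) (𝓝 P) := by
        have h1 : Continuous fun t : ℝ => (1 + t) • P := by fun_prop
        have h2 := h1.tendsto 0
        simp only [add_zero, one_smul] at h2
        exact h2.mono_left nhdsWithin_le_nhds
      obtain ⟨t, ht1, ht2⟩ := ((ht.eventually hcon).and self_mem_nhdsWithin).exists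
      have ht0 : 0 < t := ht2
      have h3 := (hmemM _).1 ht1
      rw [← smul_neg, gauge_smul_of_nonneg (by linarith), hP, ← smul_neg,
        gauge_smul_of_nonneg (inv_nonneg.2 hge.le), smul_eq_mul, smul_eq_mul] at h3
      have h4 : (gauge K e)⁻¹ * gauge K (-e) = l := by rw [hl]; ring
      rw [h4] at h3
      nlinarith
    have hcM : Convex ℝ ((-l : ℝ) • K) := hc.smul _
    have hKM : IsCompact ((-l : ℝ) • K) := hK.smul _
    obtain ⟨f, hf⟩ := geometric_hahn_banach_open_point hcM.interior isOpen_interior hPM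
    have h0M : (0 : ℂ) ∈ interior ((-l : ℝ) • K) := mem_interior_iff_mem_nhds.2 hnhdsM
    have hcl : closure (interior ((-l : ℝ) • K)) = (-l : ℝ) • K := by
      rw [hcM.closure_interior_eq_closure_of_nonempty_interior ⟨0, h0M⟩, hKM.isClosed.closure_eq]
    have hf2 : ∀ x ∈ (-l : ℝ) • K, f x ≤ f P := by
      intro x hx
      rw [← hcl] at hx
      have hcl2 : IsClosed {z : ℂ | f z ≤ f P} := isClosed_le f.continuous continuous_const
      exact closure_minimal (fun z hz => (hf z hz).le) hcl2 hx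
    set n := (InnerProductSpace.toDual ℝ ℂ).symm f with hn
    have hn2 : ∀ x, ⟪n, x⟫ = f x := fun x => InnerProductSpace.toDual_symm_apply
    have hn0 : n ≠ 0 := by
      intro h1
      have h2 := hf 0 h0M
      rw [← hn2, ← hn2, h1] at h2
      simp at h2
    refine general hK hc h0 hb hPf hl1 ?_ hn0 ?_
    · intro x hx
      rw [hmemM]
      have h1 := hle x
      have h2 := (hmem x).2 hx
      nlinarith
    · intro z hz
      rw [hn2, hn2]
      exact hf2 z hz

/-! ### The point is an interior point -/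

/-- The part of the boundary in an open half-plane which contains an interior point has positive
length. -/
lemma pos_length {K : Set ℂ} (hK : IsCompact K) {O n y : ℂ} (hy : y ∈ interior K)
    (hn : n ≠ 0) (hneg : ⟪n, y - O⟫ < 0) : 0 < μH[1] (frontier K ∩ {x | ⟪n, x - O⟫ < 0}) := by
  -- a ball around `y`
  obtain ⟨r, hr, hball⟩ := Metric.isOpen_iff.1 isOpen_interior y hy
  have hnn : 0 < ‖n‖ := norm_pos_iff.2 hn
  set t : ℂ := Complex.I * n with ht
  have htn : ‖t‖ = ‖n‖ := by rw [ht, norm_mul, Complex.norm_I, one_mul]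
  have horth : ⟪n, t⟫ = 0 := by simp [ht, Complex.inner]; ring
  set f : ℂ → ℝ := fun x => ⟪t, x - y⟫ with hf
  have hsub : Ioo 0 (r * ‖n‖) ⊆ f '' (frontier K ∩ {x | ⟪n, x - O⟫ < 0}) := by
    intro s hs
    set z : ℂ := y + (s / ‖n‖ ^ 2) • t with hz
    have hzint : z ∈ interior K := by
      apply hball
      rw [mem_ball, dist_eq_norm, hz, add_sub_cancel_left, norm_smul,
        Real.norm_of_nonneg (by have := hs.1; positivity), htn]
      rw [div_mul_eq_mul_div, div_lt_iff₀ (by positivity)]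
      nlinarith [hs.2]
    -- leave `K` in the direction `-n`
    have hex : ∃ u : ℝ, 0 ≤ u ∧ z - u • n ∈ frontier K := by
      have hcl : IsClosed {u : ℝ | z - u • n ∈ K} := hK.isClosed.preimage (by fun_prop)
      have hbdd : BddAbove {u : ℝ | z - u • n ∈ K} := by
        obtain ⟨R, hR⟩ := hK.isBounded.subset_closedBall z
        refine ⟨R / ‖n‖, ?_⟩
        intro u hu
        have h1 := hR hu
        rw [mem_closedBall, dist_eq_norm, sub_sub_cancel_left, norm_neg, norm_smul] at h1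
        rw [le_div_iff₀ hnn]
        exact (mul_le_mul_of_nonneg_right (Real.le_norm_self u) hnn.le).trans h1
      have h0 : (0 : ℝ) ∈ {u : ℝ | z - u • n ∈ K} := by
        simp only [Set.mem_ofPred_eq, zero_smul, sub_zero]
        exact interior_subset hzint
      set u := sSup {u : ℝ | z - u • n ∈ K} with hu
      have hu1 : u ∈ {u : ℝ | z - u • n ∈ K} := hcl.csSup_mem ⟨0, h0⟩ hbdd
      have hu0 : 0 ≤ u := le_csSup hbdd h0
      refine ⟨u, hu0, subset_closure hu1, ?_⟩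
      intro hint
      rw [mem_interior_iff_mem_nhds] at hint
      have htd : Tendsto (fun v : ℝ => z - (u + v) • n) (𝓝[>] 0) (𝓝 (z - u • n)) := by
        have h1 : Continuous fun v : ℝ => z - (u + v) • n := by fun_prop
        have h2 := h1.tendsto 0
        simp only [add_zero] at h2
        exact h2.mono_left nhdsWithin_le_nhds
      obtain ⟨v, hv1, hv2⟩ := ((htd.eventually hint).and self_mem_nhdsWithin).exists
      have hv0 : 0 < v := hv2
      have := le_csSup hbdd (show u + v ∈ {u : ℝ | z - u • n ∈ K} from hv1)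
      linarith
    obtain ⟨u, hu0, hu⟩ := hex
    refine ⟨z - u • n, ⟨hu, ?_⟩, ?_⟩
    · rw [Set.mem_ofPred_eq]
      have h1 : z - u • n - O = (y - O) + (s / ‖n‖ ^ 2) • t - u • n := by rw [hz]; abel
      rw [h1, inner_sub_right, inner_add_right, real_inner_smul_right, real_inner_smul_right, horth,
        real_inner_self_eq_norm_sq]
      have : 0 ≤ u * ‖n‖ ^ 2 := by positivity
      linarith
    · simp only [hf]
      have h1 : z - u • n - y = (s / ‖n‖ ^ 2) • t - u • n := by rw [hz]; abel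
      rw [h1, inner_sub_right, real_inner_smul_right, real_inner_smul_right,
        real_inner_self_eq_norm_sq, htn, real_inner_comm, horth]
      field_simp
      ring
  have hlip : LipschitzWith (‖n‖₊) f := by
    refine LipschitzWith.of_dist_le_mul fun a b => ?_
    rw [Real.dist_eq, hf]
    simp only
    rw [← inner_sub_right, sub_sub_sub_cancel_right, dist_eq_norm, coe_nnnorm, ← htn]
    exact abs_real_inner_le_norm _ _
  have h1 : μH[1] (Ioo 0 (r * ‖n‖)) ≤ (‖n‖₊ : ℝ≥0∞) ^ (1 : ℝ) *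
      μH[1] (frontier K ∩ {x | ⟪n, x - O⟫ < 0}) :=
    (measure_mono hsub).trans (hlip.hausdorffMeasure_image_le zero_le_one _)
  rw [hausdorffMeasure_real, Real.volume_Ioo, sub_zero, ENNReal.rpow_one] at h1
  by_contra hcon
  have hzero : μH[1] (frontier K ∩ {x | ⟪n, x - O⟫ < 0}) = 0 := by
    simpa using hcon
  rw [hzero, mul_zero] at h1
  have : 0 < ENNReal.ofReal (r * ‖n‖) := ENNReal.ofReal_pos.2 (by positivity)
  exact absurd h1 (not_le.2 this)

/-- **Klamkin's problem.** If every line through the point `O` bisects the perimeter of the plane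
convex body `K` then the boundary of `K` is centrally symmetric with respect to `O`. -/
theorem result (K : Set ℂ) (hK : IsCompact K) (hc : Convex ℝ K) (hi : (interior K).Nonempty) (O : ℂ)
    (hb : ∀ n : ℂ, n ≠ 0 → Bisects K O n) :
    O ∈ interior K ∧ (fun x : ℂ => 2 * O - x) '' frontier K = frontier K := by
  have hO : O ∈ interior K := by
    by_contra hcon
    obtain ⟨f, hf⟩ := geometric_hahn_banach_open_point hc.interior isOpen_interior hcon
    obtain ⟨y, hy⟩ := hi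
    have hcl : closure (interior K) = K := by
      rw [hc.closure_interior_eq_closure_of_nonempty_interior ⟨y, hy⟩, hK.isClosed.closure_eq]
    have hf2 : ∀ x ∈ K, f x ≤ f O := by
      intro x hx
      rw [← hcl] at hx
      have hcl2 : IsClosed {z : ℂ | f z ≤ f O} := isClosed_le f.continuous continuous_const
      exact closure_minimal (fun z hz => (hf z hz).le) hcl2 hx
    set n := (InnerProductSpace.toDual ℝ ℂ).symm f with hn
    have hn2 : ∀ x, ⟪n, x⟫ = f x := fun x => InnerProductSpace.toDual_symm_apply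
    have hneg : ⟪n, y - O⟫ < 0 := by
      rw [inner_sub_right, hn2, hn2]
      linarith [hf y hy]
    have hn0 : n ≠ 0 := by
      intro h1
      rw [h1, inner_zero_left] at hneg
      exact lt_irrefl _ hneg
    have h1 := hb n hn0
    unfold Bisects at h1
    have h2 : frontier K ∩ {x | 0 < ⟪n, x - O⟫} = ∅ := by
      rw [Set.eq_empty_iff_forall_notMem]
      rintro x ⟨hx, hx2⟩
      have h3 := hf2 x (hK.isClosed.frontier_subset hx)
      rw [Set.mem_ofPred_eq, inner_sub_right, hn2, hn2] at hx2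
      linarith
    rw [h2, measure_empty] at h1
    exact absurd h1.symm (pos_length hK hy hn0 hneg).ne'
  refine ⟨hO, ?_⟩
  -- translate `O` to the origin
  set Φ : ℂ ≃ᵢ ℂ := IsometryEquiv.subRight O with hΦ
  have hΦa : ∀ x, Φ x = x - O := fun x => rfl
  set K₀ : Set ℂ := Φ '' K with hK₀
  have hfr : frontier K₀ = Φ '' frontier K := (Φ.toHomeomorph.image_frontier K).symm
  have hK0 : IsCompact K₀ := hK.image Φ.continuous
  have hc0 : Convex ℝ K₀ := by
    have : K₀ = (fun z => z + -O) '' K := by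
      rw [hK₀]; apply image_congr; intro x _; rw [hΦa]; ring
    rw [this]
    have h2 := hc.translate_preimage_left (-O)
    have h3 : (fun z => z + -O) '' K = (fun z => z + O) ⁻¹' K := by
      ext z
      constructor
      · rintro ⟨x, hx, rfl⟩
        simpa using hx
      · intro hz
        exact ⟨z + O, hz, by ring⟩
    rw [h3]
    exact hc.translate_preimage_left O
  have hn0 : K₀ ∈ 𝓝 (0 : ℂ) := by
    have := Φ.toHomeomorph.isOpenMap.image_mem_nhds (mem_interior_iff_mem_nhds.1 hO)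
    have h2 : Φ.toHomeomorph O = 0 := by
      change Φ O = 0
      rw [hΦa, sub_self]
    rw [h2] at this
    exact this
  have hb0 : ∀ n : ℂ, n ≠ 0 → Bisects K₀ 0 n := by
    intro n hn
    have h1 := hb n hn
    unfold Bisects at h1 ⊢
    have e1 : frontier K₀ ∩ {x | 0 < ⟪n, x - 0⟫} = Φ '' (frontier K ∩ {x | 0 < ⟪n, x - O⟫}) := by
      rw [hfr]
      ext z
      constructor
      · rintro ⟨⟨x, hx, rfl⟩, h2⟩
        rw [Set.mem_ofPred_eq, hΦa, sub_zero] at h2
        exact ⟨x, ⟨hx, h2⟩, rfl⟩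
      · rintro ⟨x, ⟨hx, h2⟩, rfl⟩
        refine ⟨⟨x, hx, rfl⟩, ?_⟩
        rw [Set.mem_ofPred_eq, hΦa, sub_zero]
        exact h2
    have e2 : frontier K₀ ∩ {x | ⟪n, x - 0⟫ < 0} = Φ '' (frontier K ∩ {x | ⟪n, x - O⟫ < 0}) := by
      rw [hfr]
      ext z
      constructor
      · rintro ⟨⟨x, hx, rfl⟩, h2⟩
        rw [Set.mem_ofPred_eq, hΦa, sub_zero] at h2
        exact ⟨x, ⟨hx, h2⟩, rfl⟩
      · rintro ⟨x, ⟨hx, h2⟩, rfl⟩
        refine ⟨⟨x, hx, rfl⟩, ?_⟩
        rw [Set.mem_ofPred_eq, hΦa, sub_zero]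
        exact h2
    rw [e1, e2, Φ.hausdorffMeasure_image, Φ.hausdorffMeasure_image, h1]
  have hsym := symmetric_of_bisects hK0 hc0 hn0 hb0
  have hsymK : ∀ x ∈ K, 2 * O - x ∈ K := by
    intro x hx
    obtain ⟨z, hz, hz2⟩ := hsym (Φ x) (mem_image_of_mem _ hx)
    rw [hΦa, hΦa] at hz2
    have : 2 * O - x = z := by linear_combination -hz2
    rw [this]; exact hz
  set R : ℂ ≃ₜ ℂ := Homeomorph.subLeft (2 * O) with hR
  have hRa : ∀ x, R x = 2 * O - x := fun x => rfl
  have hRK : R '' K = K := by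
    apply subset_antisymm
    · rintro _ ⟨x, hx, rfl⟩
      rw [hRa]; exact hsymK x hx
    · intro x hx
      exact ⟨2 * O - x, hsymK x hx, by rw [hRa]; ring⟩
  have := R.image_frontier K
  rw [hRK] at this
  exact this

end Pool.Agent.Results.MP_7f2f72_gt.Klamkin
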